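import Mathlib

set_option autoImplicit false

namespace Pool.Agent.Results.MP_751e6a_co.DegreeGap

open Pointwise

/-- an integer point as a point of `ℝ^n` -/
def toReal {n : ℕ} (u : Fin n → ℤ) : Fin n → ℝ := fun i => (u i : ℝ)

/-- lattice polytope: convex hull of finitely many integer points -/
def IsLatticePolytope {n : ℕ} (P : Set (Fin n → ℝ)) : Prop :=
  ∃ V : Finset (Fin n → ℤ), P = convexHull ℝ (toReal '' (↑V : Set (Fin n → ℤ)))

/-- normality: for `N ≥ 2` every integer point of `NP` is a sum of `N` integer points of `P` -/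
def IsNormal {n : ℕ} (P : Set (Fin n → ℝ)) : Prop :=
  ∀ N : ℕ, 2 ≤ N → ∀ z : Fin n → ℤ, toReal z ∈ (N : ℝ) • P →
    ∃ f : Fin N → (Fin n → ℤ), (∀ i, toReal (f i) ∈ P) ∧ ∑ i, f i = z

/-- the admissible values `r` in the definition of the reduced degree of `a ∈ N P°` -/
def admissible {n : ℕ} (P : Set (Fin n → ℝ)) (N : ℕ) (a : Fin n → ℤ) : Set ℕ :=
  {r | 1 ≤ r ∧ r ≤ N ∧ ∃ a0 a' : Fin n → ℤ, a = a0 + a' ∧
    toReal a0 ∈ (r : ℝ) • interior P ∧ toReal a' ∈ ((N - r : ℕ) : ℝ) • P}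

/-- the reduced degree of `a ∈ N P°` -/
noncomputable def reducedDegree {n : ℕ} (P : Set (Fin n → ℝ)) (N : ℕ) (a : Fin n → ℤ) : ℕ :=
  sInf (admissible P N a)

/-- `d` is the int* degree of `P`: the largest reduced degree -/
def IsIntStarDegree {n : ℕ} (P : Set (Fin n → ℝ)) (d : ℕ) : Prop :=
  IsGreatest {r : ℕ | ∃ N : ℕ, 1 ≤ N ∧ ∃ a : Fin n → ℤ, toReal a ∈ (N : ℝ) • interior P ∧
    reducedDegree P N a = r} d

/-! ### the polytope -/

/-- the polytope `0 ≤ x₀ ≤ 3`, `x₁,…,x₄ ≥ 0`, `2x₀ + x₁ + x₂ + x₃ + x₄ ≤ 7` -/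
def P : Set (Fin 5 → ℝ) :=
  {x | 0 ≤ x 0 ∧ x 0 ≤ 3 ∧ 0 ≤ x 1 ∧ 0 ≤ x 2 ∧ 0 ≤ x 3 ∧ 0 ≤ x 4 ∧
    2 * x 0 + x 1 + x 2 + x 3 + x 4 ≤ 7}

/-- the vertices -/
def W : Finset (Fin 5 → ℤ) :=
  {![0, 0, 0, 0, 0], ![0, 7, 0, 0, 0], ![0, 0, 7, 0, 0], ![0, 0, 0, 7, 0], ![0, 0, 0, 0, 7],
   ![3, 0, 0, 0, 0], ![3, 1, 0, 0, 0], ![3, 0, 1, 0, 0], ![3, 0, 0, 1, 0], ![3, 0, 0, 0, 1]}

lemma convex_P : Convex ℝ P := by
  intro x hx y hy s t hs ht hst
  obtain ⟨a0, a1, a2, a3, a4, a5, a6⟩ := hx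
  obtain ⟨b0, b1, b2, b3, b4, b5, b6⟩ := hy
  simp only [P, Set.mem_ofPred_eq, Pi.add_apply, Pi.smul_apply, smul_eq_mul]
  have ht' : t = 1 - s := by linarith
  subst ht'
  refine ⟨by positivity, by nlinarith, by positivity, by positivity, by positivity, by positivity,
    by nlinarith⟩

lemma comb10 {C : Set (Fin 5 → ℝ)} (hC : Convex ℝ C) {p0 p1 p2 p3 p4 : Fin 5 → ℝ}
    (h0 : p0 ∈ C) (h1 : p1 ∈ C) (h2 : p2 ∈ C) (h3 : p3 ∈ C) (h4 : p4 ∈ C)
    {w0 w1 w2 w3 w4 : ℝ} (g0 : 0 ≤ w0) (g1 : 0 ≤ w1) (g2 : 0 ≤ w2) (g3 : 0 ≤ w3) (g4 : 0 ≤ w4)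
    (hs : w0 + w1 + w2 + w3 + w4 = 1) :
    w0 • p0 + w1 • p1 + w2 • p2 + w3 • p3 + w4 • p4 ∈ C := by
  have := hC.sum_mem (t := Finset.univ) (w := ![w0, w1, w2, w3, w4]) (z := ![p0, p1, p2, p3, p4])
    (by intro i _; fin_cases i <;> assumption)
    (by simp [Fin.sum_univ_five, hs])
    (by intro i _; fin_cases i <;> assumption)
  simpa [Fin.sum_univ_five] using this

lemma P_eq_hull : P = convexHull ℝ (toReal '' (↑W : Set (Fin 5 → ℤ))) := by
  apply Set.Subset.antisymm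
  · intro x hx
    obtain ⟨a0, a1, a2, a3, a4, a5, a6⟩ := hx
    have hm : ∀ u ∈ W, toReal u ∈ convexHull ℝ (toReal '' (↑W : Set (Fin 5 → ℤ))) := fun u hu =>
      subset_convexHull ℝ _ ⟨u, hu, rfl⟩
    have hc := convex_convexHull ℝ (toReal '' (↑W : Set (Fin 5 → ℤ)))
    set t : ℝ := x 0 / 3 with ht
    set q : ℝ := 7 - 2 * x 0 with hq
    have hq1 : 1 ≤ q := by rw [hq]; linarith
    have hq0 : 0 < q := by linarith
    have hw1 : 0 ≤ x 1 / q := by positivity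
    have hw2 : 0 ≤ x 2 / q := by positivity
    have hw3 : 0 ≤ x 3 / q := by positivity
    have hw4 : 0 ≤ x 4 / q := by positivity
    have hsum : x 1 / q + x 2 / q + x 3 / q + x 4 / q ≤ 1 := by
      rw [← add_div, ← add_div, ← add_div, div_le_one hq0]
      linarith
    have hw0 : 0 ≤ 1 - (x 1 / q + x 2 / q + x 3 / q + x 4 / q) := by linarith
    have hA := comb10 hc (hm ![0, 0, 0, 0, 0] (by decide)) (hm ![0, 7, 0, 0, 0] (by decide))
      (hm ![0, 0, 7, 0, 0] (by decide)) (hm ![0, 0, 0, 7, 0] (by decide))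
      (hm ![0, 0, 0, 0, 7] (by decide)) hw0 hw1 hw2 hw3 hw4 (by ring)
    have hB := comb10 hc (hm ![3, 0, 0, 0, 0] (by decide)) (hm ![3, 1, 0, 0, 0] (by decide))
      (hm ![3, 0, 1, 0, 0] (by decide)) (hm ![3, 0, 0, 1, 0] (by decide))
      (hm ![3, 0, 0, 0, 1] (by decide)) hw0 hw1 hw2 hw3 hw4 (by ring)
    have ht0 : 0 ≤ t := by positivity
    have ht1 : t ≤ 1 := by rw [ht]; linarith
    have hfin := hc hA hB (by linarith : 0 ≤ 1 - t) ht0 (by ring)
    convert hfin using 1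
    have hqt : q = 7 * (1 - t) + t := by rw [hq, ht]; ring
    funext i
    fin_cases i
    · simp [toReal, ht]
      ring
    · simp [toReal]
      have : x 1 = (x 1 / q) * q := by field_simp
      nth_rewrite 1 [this]
      rw [hqt]; ring
    · simp [toReal]
      have : x 2 = (x 2 / q) * q := by field_simp
      nth_rewrite 1 [this]
      rw [hqt]; ring
    · simp [toReal]
      have : x 3 = (x 3 / q) * q := by field_simp
      nth_rewrite 1 [this]
      rw [hqt]; ring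
    · simp [toReal]
      have : x 4 = (x 4 / q) * q := by field_simp
      nth_rewrite 1 [this]
      rw [hqt]; ring
  · refine convexHull_min ?_ convex_P
    rintro _ ⟨u, hu, rfl⟩
    have hu' : u ∈ W := hu
    simp only [W, Finset.mem_insert, Finset.mem_singleton] at hu'
    rcases hu' with rfl | rfl | rfl | rfl | rfl | rfl | rfl | rfl | rfl | rfl <;>
      simp [P, toReal] <;> norm_num

/-- the interior of the polytope -/
def I : Set (Fin 5 → ℝ) :=
  {x | 0 < x 0 ∧ x 0 < 3 ∧ 0 < x 1 ∧ 0 < x 2 ∧ 0 < x 3 ∧ 0 < x 4 ∧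
    2 * x 0 + x 1 + x 2 + x 3 + x 4 < 7}

lemma interior_P : interior P = I := by
  apply Set.Subset.antisymm
  · intro x hx
    obtain ⟨ε, hε, hball⟩ := Metric.isOpen_iff.1 isOpen_interior x hx
    have hmove : ∀ (i : Fin 5) (δ : ℝ), |δ| < ε → Function.update x i (x i + δ) ∈ P := by
      intro i δ hδ
      apply interior_subset
      apply hball
      rw [Metric.mem_ball, dist_pi_lt_iff hε]
      intro j
      by_cases hj : j = i
      · subst hj
        rw [Function.update_self, Real.dist_eq]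
        simpa using hδ
      · rw [Function.update_of_ne hj, dist_self]
        exact hε
    have hhalf : |ε/2| < ε := by rw [abs_of_pos (by linarith)]; linarith
    have hhalf' : |-(ε/2)| < ε := by rw [abs_neg]; exact hhalf
    have m0 := hmove 0 (-(ε/2)) hhalf'
    have m0' := hmove 0 (ε/2) hhalf
    have m1 := hmove 1 (-(ε/2)) hhalf'
    have m2 := hmove 2 (-(ε/2)) hhalf'
    have m3 := hmove 3 (-(ε/2)) hhalf'
    have m4 := hmove 4 (-(ε/2)) hhalf'
    simp only [P, Set.mem_ofPred_eq, Function.update] at m0 m0' m1 m2 m3 m4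
    simp at m0 m0' m1 m2 m3 m4
    refine ⟨by linarith [m0.1], by linarith [m0'.2.1], by linarith [m1.2.2.1],
      by linarith [m2.2.2.2.1], by linarith [m3.2.2.2.2.1], by linarith [m4.2.2.2.2.2.1],
      by linarith [m0'.2.2.2.2.2.2]⟩
  · apply interior_maximal
    · rintro x ⟨h0, h1, h2, h3, h4, h5, h6⟩
      exact ⟨h0.le, h1.le, h2.le, h3.le, h4.le, h5.le, h6.le⟩
    · have : I = {x : Fin 5 → ℝ | 0 < x 0} ∩ ({x | x 0 < 3} ∩ ({x | 0 < x 1} ∩ ({x | 0 < x 2} ∩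
          ({x | 0 < x 3} ∩ ({x | 0 < x 4} ∩ {x | 2 * x 0 + x 1 + x 2 + x 3 + x 4 < 7}))))) := by
        ext x; rfl
      rw [this]
      refine IsOpen.inter (isOpen_lt (by fun_prop) (by fun_prop)) ?_
      refine IsOpen.inter (isOpen_lt (by fun_prop) (by fun_prop)) ?_
      refine IsOpen.inter (isOpen_lt (by fun_prop) (by fun_prop)) ?_
      refine IsOpen.inter (isOpen_lt (by fun_prop) (by fun_prop)) ?_
      refine IsOpen.inter (isOpen_lt (by fun_prop) (by fun_prop)) ?_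
      refine IsOpen.inter (isOpen_lt (by fun_prop) (by fun_prop)) ?_
      exact isOpen_lt (by fun_prop) (by fun_prop)

/-- integer description of `NP` -/
lemma mem_dil (N : ℕ) (z : Fin 5 → ℤ) : toReal z ∈ (N : ℝ) • P ↔
    (0 ≤ z 0 ∧ z 0 ≤ 3 * N ∧ 0 ≤ z 1 ∧ 0 ≤ z 2 ∧ 0 ≤ z 3 ∧ 0 ≤ z 4 ∧
      2 * z 0 + z 1 + z 2 + z 3 + z 4 ≤ 7 * N) := by
  constructor
  · rintro ⟨x, ⟨h0, h1, h2, h3, h4, h5, h6⟩, hx⟩
    have hc : ∀ i, (z i : ℝ) = N * x i := fun i => by
      have := congrFun hx i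
      simp only [Pi.smul_apply, smul_eq_mul, toReal] at this
      exact this.symm
    have hN : (0:ℝ) ≤ N := Nat.cast_nonneg N
    have r0 : (0:ℝ) ≤ z 0 := by rw [hc]; positivity
    have r1 : (z 0 : ℝ) ≤ 3 * N := by rw [hc]; nlinarith
    have r2 : (0:ℝ) ≤ z 1 := by rw [hc]; positivity
    have r3 : (0:ℝ) ≤ z 2 := by rw [hc]; positivity
    have r4 : (0:ℝ) ≤ z 3 := by rw [hc]; positivity
    have r5 : (0:ℝ) ≤ z 4 := by rw [hc]; positivity
    have r6 : 2 * (z 0 : ℝ) + z 1 + z 2 + z 3 + z 4 ≤ 7 * N := by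
      rw [hc, hc, hc, hc, hc]; nlinarith
    exact ⟨by exact_mod_cast r0, by exact_mod_cast r1, by exact_mod_cast r2, by exact_mod_cast r3,
      by exact_mod_cast r4, by exact_mod_cast r5, by exact_mod_cast r6⟩
  · rintro ⟨h0, h1, h2, h3, h4, h5, h6⟩
    rcases Nat.eq_zero_or_pos N with hN | hN
    · subst hN
      have e0 : z 0 = 0 := by push_cast at h1 h6; omega
      have e1 : z 1 = 0 := by push_cast at h1 h6; omega
      have e2 : z 2 = 0 := by push_cast at h1 h6; omega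
      have e3 : z 3 = 0 := by push_cast at h1 h6; omega
      have e4 : z 4 = 0 := by push_cast at h1 h6; omega
      refine ⟨0, ⟨?_, ?_, ?_, ?_, ?_, ?_, ?_⟩, ?_⟩
      all_goals try simp
      funext i
      fin_cases i
      · simp [toReal, e0]
      · simp [toReal, e1]
      · simp [toReal, e2]
      · simp [toReal, e3]
      · simp [toReal, e4]
    · have hN' : (0:ℝ) < N := by exact_mod_cast hN
      have g0 : (0:ℝ) ≤ z 0 := by exact_mod_cast h0
      have g1 : (z 0 : ℝ) ≤ 3 * N := by exact_mod_cast h1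
      have g2 : (0:ℝ) ≤ z 1 := by exact_mod_cast h2
      have g3 : (0:ℝ) ≤ z 2 := by exact_mod_cast h3
      have g4 : (0:ℝ) ≤ z 3 := by exact_mod_cast h4
      have g5 : (0:ℝ) ≤ z 4 := by exact_mod_cast h5
      have g6 : 2 * (z 0 : ℝ) + z 1 + z 2 + z 3 + z 4 ≤ 7 * N := by exact_mod_cast h6
      refine ⟨fun i => z i / N, ⟨by positivity, ?_, by positivity, by positivity, by positivity,
        by positivity, ?_⟩, ?_⟩
      · rw [div_le_iff₀ hN']; exact g1
      · have : 2 * ((z 0 : ℝ) / N) + z 1 / N + z 2 / N + z 3 / N + z 4 / N =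
          (2 * (z 0 : ℝ) + z 1 + z 2 + z 3 + z 4) / N := by ring
        rw [this, div_le_iff₀ hN']
        exact g6
      · funext i
        simp only [Pi.smul_apply, smul_eq_mul, toReal]
        field_simp

/-- integer description of `N P°` for `N ≥ 1` -/
lemma mem_int_dil {N : ℕ} (hN : 1 ≤ N) (z : Fin 5 → ℤ) : toReal z ∈ (N : ℝ) • interior P ↔
    (0 < z 0 ∧ z 0 < 3 * N ∧ 0 < z 1 ∧ 0 < z 2 ∧ 0 < z 3 ∧ 0 < z 4 ∧
      2 * z 0 + z 1 + z 2 + z 3 + z 4 < 7 * N) := by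
  rw [interior_P]
  have hN' : (0:ℝ) < N := by exact_mod_cast hN
  constructor
  · rintro ⟨x, ⟨h0, h1, h2, h3, h4, h5, h6⟩, hx⟩
    have hc : ∀ i, (z i : ℝ) = N * x i := fun i => by
      have := congrFun hx i
      simp only [Pi.smul_apply, smul_eq_mul, toReal] at this
      exact this.symm
    have r0 : (0:ℝ) < z 0 := by rw [hc]; positivity
    have r1 : (z 0 : ℝ) < 3 * N := by rw [hc]; nlinarith
    have r2 : (0:ℝ) < z 1 := by rw [hc]; positivity
    have r3 : (0:ℝ) < z 2 := by rw [hc]; positivity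
    have r4 : (0:ℝ) < z 3 := by rw [hc]; positivity
    have r5 : (0:ℝ) < z 4 := by rw [hc]; positivity
    have r6 : 2 * (z 0 : ℝ) + z 1 + z 2 + z 3 + z 4 < 7 * N := by
      rw [hc, hc, hc, hc, hc]; nlinarith
    exact ⟨by exact_mod_cast r0, by exact_mod_cast r1, by exact_mod_cast r2, by exact_mod_cast r3,
      by exact_mod_cast r4, by exact_mod_cast r5, by exact_mod_cast r6⟩
  · rintro ⟨h0, h1, h2, h3, h4, h5, h6⟩
    have g0 : (0:ℝ) < z 0 := by exact_mod_cast h0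
    have g1 : (z 0 : ℝ) < 3 * N := by exact_mod_cast h1
    have g2 : (0:ℝ) < z 1 := by exact_mod_cast h2
    have g3 : (0:ℝ) < z 2 := by exact_mod_cast h3
    have g4 : (0:ℝ) < z 3 := by exact_mod_cast h4
    have g5 : (0:ℝ) < z 4 := by exact_mod_cast h5
    have g6 : 2 * (z 0 : ℝ) + z 1 + z 2 + z 3 + z 4 < 7 * N := by exact_mod_cast h6
    refine ⟨fun i => z i / N, ⟨by positivity, ?_, by positivity, by positivity, by positivity,
      by positivity, ?_⟩, ?_⟩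
    · rw [div_lt_iff₀ hN']; exact g1
    · have : 2 * ((z 0 : ℝ) / N) + z 1 / N + z 2 / N + z 3 / N + z 4 / N =
        (2 * (z 0 : ℝ) + z 1 + z 2 + z 3 + z 4) / N := by ring
      rw [this, div_lt_iff₀ hN']
      exact g6
    · funext i
      simp only [Pi.smul_apply, smul_eq_mul, toReal]
      field_simp

lemma mem_P_iff (z : Fin 5 → ℤ) : toReal z ∈ P ↔
    (0 ≤ z 0 ∧ z 0 ≤ 3 ∧ 0 ≤ z 1 ∧ 0 ≤ z 2 ∧ 0 ≤ z 3 ∧ 0 ≤ z 4 ∧
      2 * z 0 + z 1 + z 2 + z 3 + z 4 ≤ 7) := by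
  have := mem_dil 1 z
  simpa using this

/-- distributing a sum -/
lemma distribute (y1 y2 y3 y4 k : ℤ) (h1 : 0 ≤ y1) (h2 : 0 ≤ y2) (h3 : 0 ≤ y3) (h4 : 0 ≤ y4)
    (hk : 0 ≤ k) (hk' : k ≤ y1 + y2 + y3 + y4) :
    ∃ b1 b2 b3 b4 : ℤ, 0 ≤ b1 ∧ b1 ≤ y1 ∧ 0 ≤ b2 ∧ b2 ≤ y2 ∧ 0 ≤ b3 ∧ b3 ≤ y3 ∧ 0 ≤ b4 ∧
      b4 ≤ y4 ∧ b1 + b2 + b3 + b4 = k := by
  refine ⟨min y1 k, min y2 (k - min y1 k), min y3 (k - min y1 k - min y2 (k - min y1 k)),
    k - min y1 k - min y2 (k - min y1 k) - min y3 (k - min y1 k - min y2 (k - min y1 k)), ?_⟩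
  omega

/-- one step of the decomposition of a lattice point of `(N+1)P` -/
lemma split_off (N : ℕ) (z : Fin 5 → ℤ) (hz : toReal z ∈ ((N + 1 : ℕ) : ℝ) • P) :
    ∃ b : Fin 5 → ℤ, toReal b ∈ P ∧ toReal (z - b) ∈ (N : ℝ) • P := by
  rw [mem_dil] at hz
  obtain ⟨h0, h1, h2, h3, h4, h5, h6⟩ := hz
  push_cast at h1 h6
  obtain ⟨b1, b2, b3, b4, g1, g1', g2, g2', g3, g3', g4, g4', gs⟩ :=
    distribute (z 1) (z 2) (z 3) (z 4)
      (max 0 (2 * z 0 + z 1 + z 2 + z 3 + z 4 - 7 * N - 2 * min 3 (z 0))) h2 h3 h4 h5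
      (le_max_left _ _) (by omega)
  refine ⟨![min 3 (z 0), b1, b2, b3, b4], ?_, ?_⟩
  · rw [mem_P_iff]
    simp
    omega
  · rw [mem_dil]
    simp
    omega

lemma normal_P : IsNormal P := by
  intro N _ z hz
  have key : ∀ (M : ℕ) (z : Fin 5 → ℤ), toReal z ∈ (M : ℝ) • P →
      ∃ f : Fin M → (Fin 5 → ℤ), (∀ i, toReal (f i) ∈ P) ∧ ∑ i, f i = z := by
    intro M
    induction M with
    | zero =>
      intro z hz
      refine ⟨fun i => i.elim0, fun i => i.elim0, ?_⟩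
      rw [mem_dil] at hz
      obtain ⟨h0, h1, h2, h3, h4, h5, h6⟩ := hz
      push_cast at h1 h6
      simp only [Finset.univ_eq_empty, Finset.sum_empty]
      funext i
      fin_cases i
      · simp only [Pi.zero_apply, Fin.zero_eta]; omega
      · simp only [Pi.zero_apply, Fin.mk_one]; omega
      · show (0:ℤ) = z 2
        omega
      · show (0:ℤ) = z 3
        omega
      · show (0:ℤ) = z 4
        omega
    | succ M ih =>
      intro z hz
      obtain ⟨b, hb, hzb⟩ := split_off M z hz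
      obtain ⟨f, hf, hfs⟩ := ih (z - b) hzb
      refine ⟨Fin.cons b f, ?_, ?_⟩
      · intro i
        refine Fin.cases ?_ (fun i => ?_) i
        · simpa using hb
        · simpa using hf i
      · rw [Fin.sum_univ_succ]
        simp only [Fin.cons_zero, Fin.cons_succ, hfs]
        abel
  exact key N z hz

/-- interior lattice points of `rP` are reducible when `r ≥ 2`, `r ≠ 3` -/
lemma reducible {r : ℕ} (hr : 2 ≤ r) (hr3 : r ≠ 3) (a : Fin 5 → ℤ)
    (ha : toReal a ∈ (r : ℝ) • interior P) :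
    ∃ b : Fin 5 → ℤ, toReal b ∈ P ∧ toReal (a - b) ∈ ((r - 1 : ℕ) : ℝ) • interior P := by
  rw [mem_int_dil (by omega)] at ha
  obtain ⟨h0, h1, h2, h3, h4, h5, h6⟩ := ha
  obtain ⟨b1, b2, b3, b4, g1, g1', g2, g2', g3, g3', g4, g4', gs⟩ :=
    distribute (a 1 - 1) (a 2 - 1) (a 3 - 1) (a 4 - 1)
      (max 0 (8 - 2 * min 3 (a 0 - 1) - (7 * r - (2 * a 0 + a 1 + a 2 + a 3 + a 4))))
      (by omega) (by omega) (by omega) (by omega) (le_max_left _ _) (by omega)
  refine ⟨![min 3 (a 0 - 1), b1, b2, b3, b4], ?_, ?_⟩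
  · rw [mem_P_iff]
    simp
    omega
  · rw [mem_int_dil (by omega)]
    have hcast : ((r - 1 : ℕ) : ℤ) = (r : ℤ) - 1 := by
      push_cast [Nat.cast_sub (by omega : 1 ≤ r)]
      ring
    simp [hcast]
    omega

lemma add_mem_dil {M : ℕ} {b c : Fin 5 → ℤ} (hb : toReal b ∈ P) (hc : toReal c ∈ (M : ℝ) • P) :
    toReal (b + c) ∈ ((M + 1 : ℕ) : ℝ) • P := by
  rw [mem_P_iff] at hb
  rw [mem_dil] at hc ⊢
  simp only [Pi.add_apply]
  push_cast
  omega

lemma admissible_nonempty {N : ℕ} (hN : 1 ≤ N) {a : Fin 5 → ℤ}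
    (ha : toReal a ∈ (N : ℝ) • interior P) : (admissible P N a).Nonempty := by
  refine ⟨N, hN, le_rfl, a, 0, by simp, ha, ?_⟩
  rw [mem_dil]
  simp

lemma reducedDegree_eq {N : ℕ} (hN : 1 ≤ N) {a : Fin 5 → ℤ}
    (ha : toReal a ∈ (N : ℝ) • interior P) :
    reducedDegree P N a = 1 ∨ reducedDegree P N a = 3 := by
  have hmem := Nat.sInf_mem (admissible_nonempty hN ha)
  by_contra hcon
  push Not at hcon
  change reducedDegree P N a ∈ admissible P N a at hmem
  obtain ⟨h1, h2, a0, a', hsum, ha0, ha'⟩ := hmem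
  set r := reducedDegree P N a with hr
  have hr2 : 2 ≤ r := by omega
  obtain ⟨b, hb, hab⟩ := reducible hr2 hcon.2 a0 ha0
  have hlt : r - 1 ∈ admissible P N a := by
    refine ⟨by omega, by omega, a0 - b, b + a', ?_, hab, ?_⟩
    · rw [hsum]; abel
    · have := add_mem_dil hb ha'
      have he : N - (r - 1) = N - r + 1 := by omega
      rw [he]
      exact this
  have := Nat.sInf_le hlt
  change r ≤ r - 1 at this
  omega

lemma special_interior : toReal ![8, 1, 1, 1, 1] ∈ ((3 : ℕ) : ℝ) • interior P := by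
  rw [mem_int_dil (by norm_num)]
  simp

lemma special_degree : reducedDegree P 3 ![8, 1, 1, 1, 1] = 3 := by
  rcases reducedDegree_eq (by norm_num) special_interior with h | h
  · exfalso
    have hmem := Nat.sInf_mem (admissible_nonempty (by norm_num) special_interior)
    change reducedDegree P 3 ![8, 1, 1, 1, 1] ∈ admissible P 3 ![8, 1, 1, 1, 1] at hmem
    rw [h] at hmem
    obtain ⟨h1, h2, a0, a', hsum, ha0, ha'⟩ := hmem
    rw [mem_int_dil (by norm_num)] at ha0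
    rw [mem_dil] at ha'
    have e0 := congrFun hsum 0
    have e1 := congrFun hsum 1
    have e2 := congrFun hsum 2
    have e3 := congrFun hsum 3
    have e4 := congrFun hsum 4
    simp at e0 e1 e2 e3 e4 ha0 ha'
    omega
  · exact h

/-- `P` is a 5-dimensional normal lattice polytope with interior lattice points and int* degree 3,
but no interior lattice point of a dilate has reduced degree 2 -/
theorem result : ∃ (n : ℕ) (P : Set (Fin n → ℝ)) (d i : ℕ),
    IsLatticePolytope P ∧ (interior P).Nonempty ∧ IsNormal P ∧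
    (∃ z : Fin n → ℤ, toReal z ∈ interior P) ∧
    IsIntStarDegree P d ∧ 1 ≤ i ∧ i < d ∧
    ∀ N : ℕ, 1 ≤ N → ∀ a : Fin n → ℤ, toReal a ∈ (N : ℝ) • interior P →
      reducedDegree P N a ≠ i := by
  have hz : toReal ![1, 1, 1, 1, 1] ∈ interior P := by
    have := (mem_int_dil (le_refl 1) ![1, 1, 1, 1, 1]).2 (by simp)
    simpa using this
  refine ⟨5, P, 3, 2, ⟨W, P_eq_hull⟩, ⟨_, hz⟩, normal_P, ⟨_, hz⟩, ⟨?_, ?_⟩, by norm_num,
    by norm_num, ?_⟩
  · exact ⟨3, by norm_num, _, special_interior, special_degree⟩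
  · rintro r ⟨N, hN, a, ha, rfl⟩
    rcases reducedDegree_eq hN ha with h | h <;> omega
  · intro N hN a ha h
    rcases reducedDegree_eq hN ha with h' | h' <;> omega

end Pool.Agent.Results.MP_751e6a_co.DegreeGap
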